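import Pool.Agent.Helper32.KD2.Basic
import Pool.Agent.Helper32.KD2.St.C1
import Pool.Agent.Helper32.KD2.St.C2
import Pool.Agent.Helper32.KD2.St.C3
/-! KD2-C6: change of variables identity (II.2 of the paper). -/
namespace KD.II.C6
open Finset MeasureTheory Pointwise

theorem rtr_meas {d : ℕ} (h : ℝ) (Φ : Vd d → ℝ) : Measurable (fun w : Vd d => Φ (rtr h w)) := by
  have h1 : Measurable (fun w : Vd d => fun i => trz (w i / h)) := by
    refine measurable_pi_iff.2 (fun i => ?_)
    have h0 : Measurable (fun w : Vd d => w i / h) := by fun_prop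
    exact trz_measurable.comp h0
  have h2 : Measurable (fun z : Fin d → ℤ => Φ (fun i => h * ((z i : ℤ) : ℝ))) :=
    Measurable.of_discrete
  exact h2.comp h1

theorem rtr_bdd {d : ℕ} {h : ℝ} (hh : 0 < h) (Φ : Vd d → ℝ) (n : ℕ) :
    ∃ M : ℝ, ∀ w : Vd d, ‖w‖ < h * 2 ^ n → |Φ (rtr h w)| ≤ M := by
  classical
  let S : Finset (Fin d → ℤ) := Fintype.piFinset (fun _ => Finset.Icc (-(2 : ℤ) ^ n) (2 ^ n))
  refine ⟨∑ z ∈ S, |Φ (fun i => h * ((z i : ℤ) : ℝ))|, fun w hw => ?_⟩
  have hmem : (fun i => trz (w i / h)) ∈ S := by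
    rw [Fintype.mem_piFinset]
    intro i
    rw [Finset.mem_Icc, ← abs_le]
    have h1 : |w i| ≤ ‖w‖ := norm_le_pi_norm w i
    have h2 : |(trz (w i / h) : ℝ)| ≤ |w i / h| := abs_trz_le _
    have h3 : |w i / h| ≤ 2 ^ n := by
      rw [abs_div, abs_of_pos hh, div_le_iff₀ hh]
      nlinarith
    have h4 : |(trz (w i / h) : ℝ)| ≤ 2 ^ n := h2.trans h3
    exact_mod_cast h4
  exact Finset.single_le_sum (f := fun z : Fin d → ℤ => |Φ (fun i => h * ((z i : ℤ) : ℝ))|)
    (fun z _ => abs_nonneg _) hmem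

theorem ann_fin {d : ℕ} (x y : ℝ) : (volume : Measure (Vd d)) (ann d x y) ≠ ⊤ := by
  have h1 : ann d x y ⊆ Metric.ball 0 y := fun w hw => by
    rw [mem_ball_zero_iff]; exact hw.2
  exact ((measure_mono h1).trans_lt measure_ball_lt_top).ne

theorem G_int {d : ℕ} {s lam Lam : ℝ} (hs : 0 < s) {b : Vd d → ℝ}
    (hb : Adm lam Lam b) {h : ℝ} (hh : 0 < h) (Φ : Vd d → ℝ) (n : ℕ) {x : ℝ} (hx : 0 < x) :
    IntegrableOn (fun w => b w * Φ (rtr h w) * kw d s w) (ann d x (h * 2 ^ n)) := by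
  obtain ⟨M, hM⟩ := rtr_bdd hh Φ n
  refine Measure.integrableOn_of_bounded (M := (|lam| + |Lam|) * M * x ^ (-((d : ℝ) + 2 * s)))
    (ann_fin _ _) ?_ ?_
  · exact ((hb.meas.mul (rtr_meas h Φ)).mul kw_meas).aestronglyMeasurable
  · refine (ae_restrict_mem (ann_meas _ _)).mono (fun w hw => ?_)
    have h1 : |b w| ≤ |lam| + |Lam| := by
      have := hb.lo w
      have := hb.hi w
      rw [abs_le]
      constructor
      · have := neg_abs_le lam
        have := abs_nonneg Lam
        linarith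
      · have := le_abs_self Lam
        have := abs_nonneg lam
        linarith
    have h2 : |Φ (rtr h w)| ≤ M := hM w hw.2
    have h3 : kw d s w ≤ x ^ (-((d : ℝ) + 2 * s)) := by
      unfold kw
      exact Real.rpow_le_rpow_of_nonpos hx hw.1 (by have := Nat.cast_nonneg (α := ℝ) d; linarith)
    rw [Real.norm_eq_abs, abs_mul, abs_mul, abs_of_nonneg (kw_nonneg w)]
    have h4 : |b w| * |Φ (rtr h w)| ≤ (|lam| + |Lam|) * M :=
      mul_le_mul h1 h2 (abs_nonneg _) (by positivity)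
    have h5 : 0 ≤ (|lam| + |Lam|) * M := le_trans (by positivity) h4
    exact mul_le_mul h4 h3 (kw_nonneg w) h5

theorem smul_ann {d : ℕ} {c : ℝ} (hc : 0 < c) : c • ann d 1 2 = ann d c (c * 2) := by
  ext w
  constructor
  · rintro ⟨u, hu, rfl⟩
    refine ⟨?_, ?_⟩
    · show c ≤ ‖c • u‖
      rw [norm_smul, Real.norm_of_nonneg hc.le]
      have := hu.1
      nlinarith
    · show ‖c • u‖ < c * 2
      rw [norm_smul, Real.norm_of_nonneg hc.le]
      exact mul_lt_mul_of_pos_left hu.2 hc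
  · intro hw
    refine ⟨c⁻¹ • w, ⟨?_, ?_⟩, ?_⟩
    · rw [norm_smul, norm_inv, Real.norm_of_nonneg hc.le, ← div_eq_inv_mul, le_div_iff₀ hc, one_mul]
      exact hw.1
    · rw [norm_smul, norm_inv, Real.norm_of_nonneg hc.le, ← div_eq_inv_mul, div_lt_iff₀ hc, mul_comm]
      exact hw.2
    · show c • (c⁻¹ • w) = w
      rw [smul_smul, mul_inv_cancel₀ hc.ne', one_smul]

theorem cel_union {d J : ℕ} (hd : 1 ≤ d) : (⋃ l ∈ ThF d J, cel d J l) = ann d 1 2 := by
  ext w
  rw [← trv_mem_iff (J := J) hd]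
  simp only [Set.mem_iUnion, exists_prop]
  constructor
  · rintro ⟨l, hl, hw⟩
    have : trv ((2 : ℝ) ^ J • w) = l := hw
    rw [this]; exact hl
  · intro hl
    exact ⟨_, hl, rfl⟩

theorem sum_ann {d : ℕ} {G : Vd d → ℝ} {h : ℝ} (hh : 0 < h)
    (hG : ∀ n : ℕ, ∀ x : ℝ, 0 < x → IntegrableOn G (ann d x (h * 2 ^ n))) (n : ℕ) :
    ∑ j ∈ range n, ∫ w in ann d (h * 2 ^ j) (h * 2 ^ (j + 1)), G w =
      ∫ w in ann d h (h * 2 ^ n), G w := by
  induction n with
  | zero =>
    have : ann d h (h * 2 ^ 0) = ∅ := by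
      ext w
      simp only [ann, pow_zero, mul_one, Set.mem_ofPred_eq, Set.mem_empty_iff_false, iff_false]
      intro hw
      linarith [hw.1, hw.2]
    rw [this]
    simp
  | succ n ih =>
    rw [Finset.sum_range_succ, ih]
    have hu : ann d h (h * 2 ^ (n + 1)) = ann d h (h * 2 ^ n) ∪ ann d (h * 2 ^ n) (h * 2 ^ (n + 1)) := by
      ext w
      have e1 : h ≤ h * 2 ^ n := by
        have : (1 : ℝ) ≤ 2 ^ n := one_le_pow₀ (by norm_num)
        nlinarith
      have e2 : h * 2 ^ n ≤ h * 2 ^ (n + 1) := by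
        rw [pow_succ]
        have : 0 < h * 2 ^ n := by positivity
        nlinarith
      simp only [ann, Set.mem_ofPred_eq, Set.mem_union]
      constructor
      · rintro ⟨h1, h2⟩
        rcases lt_or_ge ‖w‖ (h * 2 ^ n) with h3 | h3
        · exact Or.inl ⟨h1, h3⟩
        · exact Or.inr ⟨h3, h2⟩
      · rintro (⟨h1, h2⟩ | ⟨h1, h2⟩)
        · exact ⟨h1, h2.trans_le e2⟩
        · exact ⟨e1.trans h1, h2⟩
    rw [hu, setIntegral_union]
    · rw [Set.disjoint_left]
      intro w h1 h2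
      exact absurd h1.2 (not_lt.2 h2.1)
    · exact ann_meas _ _
    · exact hG n h hh
    · exact hG (n + 1) _ (by positivity)

theorem one_scale {d J : ℕ} (hd : 1 ≤ d) {s lam Lam : ℝ} (hs : 0 < s) {b : Vd d → ℝ}
    (hb : Adm lam Lam b) {h : ℝ} (hh : 0 < h) (Φ : Vd d → ℝ) {j : ℕ} (hj : j ≤ J) :
    ∑ l ∈ ThF d J, mass d s J l / tim s j * acf s b h J j l * Φ (rjmp h J j l) =
    h ^ (2 * s) * ∫ w in ann d (h * 2 ^ j) (h * 2 ^ (j + 1)), b w * Φ (rtr h w) * kw d s w := by
  set c : ℝ := h * 2 ^ j with hc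
  have hc0 : 0 < c := by positivity
  set G : Vd d → ℝ := fun w => b w * Φ (rtr h w) * kw d s w with hG
  have htim : 0 < tim s j := by unfold tim; positivity
  -- the integrand on the unit annulus
  have hkey : ∀ w : Vd d, b (c • w) * Φ (rtr h (c • w)) * kw d s w =
      c ^ ((d : ℝ) + 2 * s) * G (c • w) := by
    intro w
    rw [hG]
    simp only
    rw [kw_smul hc0 w, show c ^ ((d : ℝ) + 2 * s) * (b (c • w) * Φ (rtr h (c • w)) *
      (c ^ (-((d : ℝ) + 2 * s)) * kw d s w)) = (c ^ ((d : ℝ) + 2 * s) * c ^ (-((d : ℝ) + 2 * s))) *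
      (b (c • w) * Φ (rtr h (c • w)) * kw d s w) by ring, ← Real.rpow_add hc0]
    simp
  have hcs : (c : ℝ) * 2 = h * 2 ^ (j + 1) := by rw [hc, pow_succ]; ring
  have hGi : IntegrableOn G (ann d c (c * 2)) := by
    rw [hcs]; exact G_int hs hb hh Φ (j + 1) hc0
  have hI : IntegrableOn (fun w => b (c • w) * Φ (rtr h (c • w)) * kw d s w) (ann d 1 2) := by
    have e : (fun w : Vd d => b (c • w) * Φ (rtr h (c • w)) * kw d s w) =
        fun w => c ^ ((d : ℝ) + 2 * s) * G (c • w) := funext hkey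
    rw [e]
    refine Integrable.const_mul ?_ _
    have h1 : Integrable (fun w => (ann d c (c * 2)).indicator G w) :=
      (integrable_indicator_iff (ann_meas _ _)).2 hGi
    have h2 : Integrable (fun w => (ann d c (c * 2)).indicator G (c • w)) :=
      h1.comp_smul hc0.ne'
    have h3 : (fun w => (ann d c (c * 2)).indicator G (c • w)) =
        (ann d 1 2).indicator (fun w => G (c • w)) := by
      funext w
      have hiff : c • w ∈ ann d c (c * 2) ↔ w ∈ ann d 1 2 := by
        rw [← smul_ann hc0]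
        exact Set.smul_mem_smul_set_iff₀ hc0.ne' _ _
      by_cases hw : w ∈ ann d 1 2
      · rw [Set.indicator_of_mem hw, Set.indicator_of_mem (hiff.2 hw)]
      · rw [Set.indicator_of_notMem hw, Set.indicator_of_notMem (fun hh' => hw (hiff.1 hh'))]
    rw [h3] at h2
    exact (integrable_indicator_iff (ann_meas _ _)).1 h2
  -- each cell
  have hcell : ∀ l ∈ ThF d J, mass d s J l / tim s j * acf s b h J j l * Φ (rjmp h J j l) =
      (tim s j)⁻¹ * ∫ w in cel d J l, b (c • w) * Φ (rtr h (c • w)) * kw d s w := by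
    intro l hl
    have hm := mass_pos (J := J) hd hs hl
    have e1 : mass d s J l * acf s b h J j l = ∫ w in cel d J l, b (c • w) * kw d s w := by
      unfold acf
      rw [mul_div_cancel₀ _ hm.ne']
    have e2 : ∫ w in cel d J l, b (c • w) * Φ (rtr h (c • w)) * kw d s w =
        ∫ w in cel d J l, b (c • w) * kw d s w * Φ (rjmp h J j l) := by
      refine setIntegral_congr_fun (cel_meas l) (fun w hw => ?_)
      have e3 : rtr h (c • w) = rjmp h J j l := by
        funext i
        have e4 := congrFun (trv_scale hw hj) i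
        unfold rtr rjmp
        rw [← e4]
        unfold trv
        have e5 : (c • w) i / h = ((2 : ℝ) ^ j • w) i := by
          simp only [Pi.smul_apply, smul_eq_mul]
          rw [hc]
          field_simp
        rw [e5]
      rw [e3]
      ring
    rw [e2, integral_mul_const, ← e1]
    field_simp
  rw [Finset.sum_congr rfl hcell, ← Finset.mul_sum]
  have hsum : ∑ l ∈ ThF d J, ∫ w in cel d J l, b (c • w) * Φ (rtr h (c • w)) * kw d s w =
      ∫ w in ann d 1 2, b (c • w) * Φ (rtr h (c • w)) * kw d s w := by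
    rw [← cel_union (J := J) hd, integral_biUnion_finset]
    · intro l _
      exact cel_meas l
    · intro l _ l' _ hne
      rw [Function.onFun, Set.disjoint_left]
      intro w hw hw'
      apply hne
      have h1 : trv ((2 : ℝ) ^ J • w) = l := hw
      have h2 : trv ((2 : ℝ) ^ J • w) = l' := hw'
      rw [← h1, ← h2]
    · intro l hl
      exact hI.mono_set (cel_sub_ann hd hl)
  rw [hsum]
  have hfin : Module.finrank ℝ (Vd d) = d := by simp
  have e6 : ∫ w in ann d 1 2, b (c • w) * Φ (rtr h (c • w)) * kw d s w =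
      c ^ (2 * s) * ∫ w in ann d c (c * 2), G w := by
    have e7 : ∫ w in ann d 1 2, b (c • w) * Φ (rtr h (c • w)) * kw d s w =
        c ^ ((d : ℝ) + 2 * s) * ∫ w in ann d 1 2, G (c • w) := by
      rw [← integral_const_mul]
      refine setIntegral_congr_fun (ann_meas _ _) (fun w _ => hkey w)
    rw [e7, Measure.setIntegral_comp_smul_of_pos _ _ _ hc0, smul_ann hc0, hfin, smul_eq_mul,
      ← mul_assoc]
    congr 1
    rw [Real.rpow_add hc0, Real.rpow_natCast]
    have : (c ^ d) ≠ 0 := (pow_pos hc0 d).ne'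
    field_simp
  rw [e6, hcs, ← mul_assoc]
  congr 1
  rw [hc, Real.mul_rpow hh.le (by positivity)]
  have e8 : ((2 : ℝ) ^ j) ^ (2 * s) = tim s j := by
    unfold tim
    rw [← Real.rpow_natCast, ← Real.rpow_mul (by norm_num)]
    congr 1
    ring
  rw [e8]
  field_simp

theorem jump_identity {d J : ℕ} (hd : 1 ≤ d) {s lam Lam : ℝ} (hs : 0 < s) {b : Vd d → ℝ}
    (hb : Adm lam Lam b) {h : ℝ} (hh : 0 < h) (Φ : Vd d → ℝ) :
    IntegrableOn (fun w => b w * Φ (rtr h w) * kw d s w) (ann d h (h * 2 ^ (J + 1))) ∧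
    ∑ j ∈ range (J + 1), ∑ l ∈ ThF d J,
      mass d s J l / tim s j * acf s b h J j l * Φ (rjmp h J j l) =
    h ^ (2 * s) * ∫ w in ann d h (h * 2 ^ (J + 1)), b w * Φ (rtr h w) * kw d s w := by
  refine ⟨G_int hs hb hh Φ (J + 1) hh, ?_⟩
  rw [Finset.sum_congr rfl (fun j hj => one_scale hd hs hb hh Φ
    (Nat.lt_succ_iff.1 (Finset.mem_range.1 hj))), ← Finset.mul_sum,
    sum_ann hh (fun n x hx => G_int hs hb hh Φ n hx)]

end KD.II.C6
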